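import Pool.Agent.helper5.SYM.SpecB

set_option autoImplicit false

namespace Pool.Agent.SYM
open Finset CT Polynomial

/-- Induction along a circuit. -/
theorem DHE_ind {D : Type} {s τ : D → D} (hs : ∀ d, s (s d) = d) (ht : ∀ d, τ (τ d) = d) (S : Set D)
    (h1 : ∀ d ∈ S, s d ∈ S) (h2 : ∀ d ∈ S, τ d ∈ S) {d d₀ : D} (h : cir s τ d = cir s τ d₀)
    (h0 : d₀ ∈ S) : d ∈ S := by
  let m : Cir s τ → Prop := Quot.lift (fun d => d ∈ S) (by
    rintro a b (h | h)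
    · rw [h]
      refine propext ⟨h1 a, fun h3 => ?_⟩
      have h4 := h1 _ h3
      rwa [hs] at h4
    · rw [h]
      refine propext ⟨h2 a, fun h3 => ?_⟩
      have h4 := h2 _ h3
      rwa [ht] at h4)
  have h5 : m (cir s τ d) = m (cir s τ d₀) := by rw [h]
  have h6 : (d ∈ S) = (d₀ ∈ S) := h5
  rw [h6]
  exact h0

section

variable {D : Type} [Finite D]

/-- the rotations -/
noncomputable def DHE_chi (ρ : Equiv.Perm D) (i : ZMod (orderOf ρ)) : Equiv.Perm D := ρ ^ i.val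

theorem DHE_chi_add (ρ : Equiv.Perm D) (i j : ZMod (orderOf ρ)) :
    DHE_chi ρ (i + j) = DHE_chi ρ i * DHE_chi ρ j := by
  have hne : NeZero (orderOf ρ) := ⟨(orderOf_pos ρ).ne'⟩
  rw [DHE_chi, DHE_chi, DHE_chi, ZMod.val_add, pow_mod_orderOf, pow_add]

omit [Finite D] in
theorem DHE_chi_zero (ρ : Equiv.Perm D) : DHE_chi ρ 0 = 1 := by
  rw [DHE_chi, ZMod.val_zero, pow_zero]

theorem DHE_chi_sub (ρ : Equiv.Perm D) (i j : ZMod (orderOf ρ)) :
    DHE_chi ρ (j - i) = (DHE_chi ρ i)⁻¹ * DHE_chi ρ j := by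
  rw [eq_inv_mul_iff_mul_eq, ← DHE_chi_add, add_sub_cancel]

theorem DHE_chi_eq_one (ρ : Equiv.Perm D) (i : ZMod (orderOf ρ)) (h : DHE_chi ρ i = 1) : i = 0 := by
  have hne : NeZero (orderOf ρ) := ⟨(orderOf_pos ρ).ne'⟩
  rw [DHE_chi] at h
  have h2 := orderOf_dvd_of_pow_eq_one h
  have h3 := ZMod.val_lt i
  have h4 : i.val = 0 := Nat.eq_zero_of_dvd_of_lt h2 h3
  exact (ZMod.val_eq_zero i).1 h4

omit [Finite D] in
theorem DHE_conj {ρ σ : Equiv.Perm D} (hσ : σ * σ = 1) (hρ : σ * ρ * σ = ρ⁻¹) (k : ℕ) :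
    ρ ^ k * σ = σ * (ρ ^ k)⁻¹ := by
  have h1 : ρ * σ = σ * ρ⁻¹ := by
    rw [← hρ, ← mul_assoc, ← mul_assoc, hσ, one_mul]
  rw [← inv_pow]
  induction k with
  | zero => rw [pow_zero, pow_zero, one_mul, mul_one]
  | succ k ih => rw [pow_succ', mul_assoc, ih, ← mul_assoc, h1, mul_assoc, ← pow_succ']

/-- the representation of the dihedral group -/
noncomputable def DHE_phi (ρ σ : Equiv.Perm D) (hσ : σ * σ = 1) (hρ : σ * ρ * σ = ρ⁻¹) :
    DihedralGroup (orderOf ρ) →* Equiv.Perm D where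
  toFun g := match g with
    | .r i => DHE_chi ρ i
    | .sr i => σ * DHE_chi ρ i
  map_one' := DHE_chi_zero ρ
  map_mul' := by
    have hc : ∀ i, DHE_chi ρ i * σ = σ * (DHE_chi ρ i)⁻¹ := fun i => DHE_conj hσ hρ _
    rintro (i | i) (j | j)
    · exact DHE_chi_add ρ i j
    · change σ * DHE_chi ρ (j - i) = DHE_chi ρ i * (σ * DHE_chi ρ j)
      rw [DHE_chi_sub, ← mul_assoc, ← mul_assoc, hc]
    · change σ * DHE_chi ρ (i + j) = (σ * DHE_chi ρ i) * DHE_chi ρ j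
      rw [DHE_chi_add, mul_assoc]
    · change DHE_chi ρ (j - i) = (σ * DHE_chi ρ i) * (σ * DHE_chi ρ j)
      rw [DHE_chi_sub, mul_assoc, ← mul_assoc (DHE_chi ρ i), hc, ← mul_assoc, ← mul_assoc, hσ,
        one_mul]

omit [Finite D] in
theorem DHE_fix {ρ σ : Equiv.Perm D} (hσ : σ * σ = 1) (hρ : σ * ρ * σ = ρ⁻¹) (h0 : ∀ d, σ d ≠ d)
    (h1 : ∀ d, (σ * ρ) d ≠ d) (k : ℕ) : ∀ d, (σ * ρ ^ k) d ≠ d := by
  have h2 : σ * ρ = ρ⁻¹ * σ := by
    rw [← hρ, mul_assoc (σ * ρ), hσ, mul_one]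
  induction k using Nat.twoStepInduction with
  | zero => intro d; rw [pow_zero, mul_one]; exact h0 d
  | one => intro d; rw [pow_one]; exact h1 d
  | more k ih _ =>
    intro d hd
    have h3 : σ * ρ ^ (k + 2) = ρ⁻¹ * ((σ * ρ ^ k) * ρ) := by
      rw [show k + 2 = 1 + k + 1 by omega, pow_succ, pow_add, pow_one, ← mul_assoc, ← mul_assoc, h2]
      simp only [mul_assoc]
    rw [h3, Equiv.Perm.mul_apply, Equiv.Perm.inv_eq_iff_eq, Equiv.Perm.mul_apply] at hd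
    exact ih (ρ d) hd

theorem DHE_main (P : Type) [Group P] [MulAction P D] (s τ : D → D) (d₀ : D)
    (hs : ∀ d, s (s d) = d) (ht : ∀ d, τ (τ d) = d) (hsn : ∀ d, s d ≠ d) (htn : ∀ d, τ d ≠ d)
    (hps : ∀ (p : P) (d : D), p • s d = s (p • d)) (hpt : ∀ (p : P) (d : D), p • τ d = τ (p • d))
    (hfree : ∀ p : P, p • d₀ = d₀ → p = 1)
    (htr : ∀ S : Set D, d₀ ∈ S → (∀ d ∈ S, s d ∈ S) → (∀ d ∈ S, τ d ∈ S) → ∀ d, d ∈ S) :
    ∃ k, 0 < k ∧ ∃ f : P →* DihedralGroup k, Function.Injective f := by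
  obtain ⟨σ, hσa⟩ : ∃ σ : Equiv.Perm D, ∀ d, σ d = s d :=
    ⟨Function.Involutive.toPerm s hs, fun d => rfl⟩
  obtain ⟨T, hTa⟩ : ∃ T : Equiv.Perm D, ∀ d, T d = τ d :=
    ⟨Function.Involutive.toPerm τ ht, fun d => rfl⟩
  have hσ : σ * σ = 1 := by
    ext d
    rw [Equiv.Perm.mul_apply, hσa, hσa, hs, Equiv.Perm.one_apply]
  have hT : T * T = 1 := by
    ext d
    rw [Equiv.Perm.mul_apply, hTa, hTa, ht, Equiv.Perm.one_apply]
  obtain ⟨ρ, hρd⟩ : ∃ ρ : Equiv.Perm D, ρ = T * σ := ⟨_, rfl⟩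
  have hρ : σ * ρ * σ = ρ⁻¹ := by
    rw [eq_inv_iff_mul_eq_one, hρd]
    have h1 : σ * (T * σ) * σ * (T * σ) = σ * T * (σ * σ) * (T * σ) := by
      simp only [mul_assoc]
    rw [h1, hσ, mul_one]
    have h2 : σ * T * (T * σ) = σ * (T * T) * σ := by simp only [mul_assoc]
    rw [h2, hT, mul_one, hσ]
  have hTρ : T = ρ * σ := by
    rw [hρd, mul_assoc, hσ, mul_one]
  have hne : NeZero (orderOf ρ) := ⟨(orderOf_pos ρ).ne'⟩
  have hχ1 : DHE_chi ρ 1 = ρ := by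
    rw [DHE_chi, ZMod.val_one_eq_one_mod, pow_mod_orderOf, pow_one]
  obtain ⟨φ, hφr, hφs⟩ : ∃ φ : DihedralGroup (orderOf ρ) →* Equiv.Perm D,
      (∀ i, φ (.r i) = DHE_chi ρ i) ∧ ∀ i, φ (.sr i) = σ * DHE_chi ρ i :=
    ⟨DHE_phi ρ σ hσ hρ, fun i => rfl, fun i => rfl⟩
  -- transitivity
  have htrans : ∀ d, ∃ g, φ g d₀ = d := by
    intro d
    refine htr {d | ∃ g, φ g d₀ = d} ⟨1, by rw [map_one]; rfl⟩ ?_ ?_ d
    · rintro _ ⟨g, rfl⟩
      refine ⟨.sr 0 * g, ?_⟩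
      rw [map_mul, hφs, DHE_chi_zero, mul_one, Equiv.Perm.mul_apply, hσa]
    · rintro _ ⟨g, rfl⟩
      refine ⟨.r 1 * .sr 0 * g, ?_⟩
      rw [map_mul, map_mul, hφs, hφr, DHE_chi_zero, mul_one, hχ1, ← hTρ, Equiv.Perm.mul_apply, hTa]
  -- freeness
  have hfree' : ∀ g, φ g d₀ = d₀ → g = 1 := by
    rintro (i | i) hg
    · rw [hφr] at hg
      have h1 : DHE_chi ρ i = 1 := by
        ext d
        rw [Equiv.Perm.one_apply]
        have hcσ : DHE_chi ρ i * σ = σ * (DHE_chi ρ i)⁻¹ := DHE_conj hσ hρ _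
        have hs' : ∀ x, DHE_chi ρ i x = x → DHE_chi ρ i (s x) = s x := by
          intro x hx
          rw [← hσa, ← Equiv.Perm.mul_apply, hcσ, Equiv.Perm.mul_apply, Equiv.Perm.inv_eq_iff_eq.2]
          exact hx.symm
        refine htr {d | DHE_chi ρ i d = d} hg (fun x hx => hs' x hx) (fun x hx => ?_) d
        have hx' : DHE_chi ρ i x = x := hx
        have hc : DHE_chi ρ i * ρ = ρ * DHE_chi ρ i := by
          rw [DHE_chi, ← pow_succ, ← pow_succ']
        change DHE_chi ρ i (τ x) = τ x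
        rw [← hTa, hTρ, Equiv.Perm.mul_apply, ← Equiv.Perm.mul_apply, hc, Equiv.Perm.mul_apply, hσa,
          hs' x hx']
      rw [DHE_chi_eq_one ρ i h1, DihedralGroup.r_zero]
    · exfalso
      rw [hφs] at hg
      refine DHE_fix hσ hρ (fun d => by rw [hσa]; exact hsn d) (fun d hd => ?_) i.val d₀ hg
      rw [hρd, Equiv.Perm.mul_apply, Equiv.Perm.mul_apply] at hd
      have h2 : T (σ d) = σ d := by
        have h3 := congrArg σ hd
        rwa [← Equiv.Perm.mul_apply, hσ, Equiv.Perm.one_apply] at h3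
      rw [hTa] at h2
      exact htn _ h2
  -- the action of `P` commutes with the dihedral group
  have hcomm : ∀ (p : P) g d, p • φ g d = φ g (p • d) := by
    intro p g d
    have h1 : Commute (MulAction.toPerm p : Equiv.Perm D) σ := by
      ext x
      rw [Equiv.Perm.mul_apply, Equiv.Perm.mul_apply, hσa, hσa]
      exact hps p x
    have h2 : Commute (MulAction.toPerm p : Equiv.Perm D) T := by
      ext x
      rw [Equiv.Perm.mul_apply, Equiv.Perm.mul_apply, hTa, hTa]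
      exact hpt p x
    have h3 : ∀ i, Commute (MulAction.toPerm p : Equiv.Perm D) (DHE_chi ρ i) := by
      intro i
      have h5 : Commute (MulAction.toPerm p : Equiv.Perm D) ρ := by
        rw [hρd]; exact h2.mul_right h1
      exact h5.pow_right _
    have h4 : Commute (MulAction.toPerm p : Equiv.Perm D) (φ g) := by
      rcases g with i | i
      · rw [hφr]; exact h3 i
      · rw [hφs]; exact h1.mul_right (h3 i)
    exact congrArg (fun e : Equiv.Perm D => e d) h4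
  choose h hh using fun p : P => htrans (p • d₀)
  have hmul : ∀ p q, h (p * q) = h q * h p := by
    intro p q
    have h1 : φ (h (p * q)) d₀ = φ (h q * h p) d₀ := by
      rw [hh, map_mul, Equiv.Perm.mul_apply, hh, ← hcomm, hh, mul_smul]
    have h2 : φ ((h q * h p)⁻¹ * h (p * q)) d₀ = d₀ := by
      rw [map_mul, Equiv.Perm.mul_apply, h1, ← Equiv.Perm.mul_apply, ← map_mul, inv_mul_cancel,
        map_one, Equiv.Perm.one_apply]
    have h3 := hfree' _ h2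
    rw [inv_mul_eq_one] at h3
    exact h3.symm
  refine ⟨orderOf ρ, orderOf_pos ρ, MonoidHom.mk' (fun p => (h p)⁻¹) (fun p q => ?_), ?_⟩
  · rw [hmul, mul_inv_rev]
  · rw [injective_iff_map_eq_one]
    intro p hp
    have h1 : (h p)⁻¹ = 1 := hp
    rw [inv_eq_one] at h1
    apply hfree
    rw [← hh, h1, map_one]
    rfl

end

theorem DHE : DHE_stmt := by
  intro D P _ _ _ s τ d₀ hs ht hsn htn hps hpt hfree hcir
  have hcs : ∀ d, cir s τ (s d) = cir s τ d := fun d =>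
    (Quot.sound (r := fun d d' : D => d' = s d ∨ d' = τ d) (a := d) (Or.inl rfl)).symm
  have hct : ∀ d, cir s τ (τ d) = cir s τ d := fun d =>
    (Quot.sound (r := fun d d' : D => d' = s d ∨ d' = τ d) (a := d) (Or.inr rfl)).symm
  have hpc : ∀ (p : P) (d : D), cir s τ d = cir s τ d₀ → cir s τ (p • d) = cir s τ d₀ := by
    intro p d hd
    refine DHE_ind hs ht {d | cir s τ (p • d) = cir s τ d₀} ?_ ?_ hd (hcir p)
    · intro x hx
      change cir s τ (p • s x) = cir s τ d₀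
      rw [hps, hcs]
      exact hx
    · intro x hx
      change cir s τ (p • τ x) = cir s τ d₀
      rw [hpt, hct]
      exact hx
  let Ω : Type := {d : D // cir s τ d = cir s τ d₀}
  let act : MulAction P Ω :=
    { smul := fun p d => ⟨p • d.1, hpc p d.1 d.2⟩
      one_smul := fun d => Subtype.ext (one_smul P d.1)
      mul_smul := fun p q d => Subtype.ext (mul_smul p q d.1) }
  refine DHE_main (D := Ω) P (fun d => ⟨s d.1, (hcs d.1).trans d.2⟩)
    (fun d => ⟨τ d.1, (hct d.1).trans d.2⟩) ⟨d₀, rfl⟩ (fun d => Subtype.ext (hs d.1))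
    (fun d => Subtype.ext (ht d.1)) (fun d h => hsn d.1 (congrArg Subtype.val h))
    (fun d h => htn d.1 (congrArg Subtype.val h)) (fun p d => Subtype.ext (hps p d.1))
    (fun p d => Subtype.ext (hpt p d.1)) (fun p h => hfree p (congrArg Subtype.val h)) ?_
  intro S h0 h1 h2 d
  have h3 : d.1 ∈ {x : D | ∃ hx : cir s τ x = cir s τ d₀, (⟨x, hx⟩ : Ω) ∈ S} := by
    refine DHE_ind hs ht _ ?_ ?_ d.2 ⟨rfl, h0⟩
    · rintro x ⟨hx, hxS⟩
      exact ⟨(hcs x).trans hx, h1 _ hxS⟩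
    · rintro x ⟨hx, hxS⟩
      exact ⟨(hct x).trans hx, h2 _ hxS⟩
  obtain ⟨_, h4⟩ := h3
  exact h4

end Pool.Agent.SYM
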