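import Pool.Agent.helper5.SYM.SpecB

set_option autoImplicit false

namespace Pool.Agent.SYM
open Finset CT Polynomial

section

variable {V A : Type} [Fintype V] [DecidableEq V] [AddCommGroup A] [Fintype A] {G : SimpleGraph V}
  {θ : A → (G ≃g G)} {R J K Z : Finset V} {γ : V → A} {κ : V × Fin 4 → G.Dart}
  {t : V → Fin 3} {ζ : V → A} {τ : G.Dart → G.Dart}

omit [Fintype V] [DecidableEq V] [Fintype A] in
theorem GPL_Y (hτ : IsTS τ) (hinv : ∀ a, Inv (θ a) τ) (d : G.Dart) (h : Yf θ d) : Yf θ (τ d) := by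
  intro a ha
  refine h a ?_
  rw [← hinv a d] at ha
  rw [← hτ.1 (sd (θ a) d), ha, hτ.1]

omit [Fintype A] in
/-- invariance under `τ` has to be checked on representatives -/
theorem GPL_inv (hFre : Fre (fun d : G.Dart => d.symm) (fun a d => sd (θ a) d) (Yf θ) (XX R J K) κ)
    (hτ : IsTS τ) (hinv : ∀ a, Inv (θ a) τ) (φ : G.Dart → Bool)
    (h0 : ∀ d, ¬ Yf θ d → φ d = false) : (∀ d, φ (τ d) = φ d) ↔
      ∀ x ∈ XX R J K, ∀ g, φ (sd (θ g) (τ (κ x))) = φ (sd (θ g) (κ x)) := by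
  constructor
  · intro h x _ g
    rw [← hinv g, h]
  · intro h d
    by_cases hd : Yf θ d
    · obtain ⟨x, hx, a, ha⟩ := hFre.q2 d hd
      have ha' : sd (θ a) (κ x) = d := ha
      rw [← ha', hinv a]
      exact h x hx a
    · have hd' : ¬ Yf θ (τ d) := fun h2 => hd (by
        have h3 := GPL_Y hτ hinv _ h2
        rwa [hτ.1] at h3)
      rw [h0 d hd, h0 _ hd']

theorem GPL_mR {r : V} (hr : r ∈ R) (i : Fin 4) : (r, i) ∈ XX R J K :=
  mem_union_left _ (mem_union_left _ (mem_product.2 ⟨hr, mem_univ _⟩))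

theorem GPL_mJ0 {j : V} (hj : j ∈ J) : (j, (0 : Fin 4)) ∈ XX R J K :=
  mem_union_left _ (mem_union_right _ (mem_product.2 ⟨hj, by simp⟩))

theorem GPL_mJ1 {j : V} (hj : j ∈ J) : (j, (1 : Fin 4)) ∈ XX R J K :=
  mem_union_left _ (mem_union_right _ (mem_product.2 ⟨hj, by simp⟩))

theorem GPL_mK {k : V} (hk : k ∈ K) : (k, (0 : Fin 4)) ∈ XX R J K :=
  mem_union_right _ (mem_product.2 ⟨hk, by simp⟩)

theorem GPL_core (hD : Dat θ R J K γ κ)
    (hFre : Fre (fun d : G.Dart => d.symm) (fun a d => sd (θ a) d) (Yf θ) (XX R J K) κ)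
    (hZK : Z ⊆ K) (hτ : IsTS τ) (hinv : ∀ a, Inv (θ a) τ) (hTF : TF θ R J K γ κ t ζ τ)
    (φ : G.Dart → Bool) (h0 : ∀ d, ¬ Yf θ d → φ d = false)
    (Φ : (V × Fin 3) × Fin 4 → A → Bool)
    (hΦ : ∀ x ∈ XX R J K, ∀ g, Φ (li x) g = φ (sd (θ g) (κ x)))
    (γ' : (V × Fin 3) × Fin 4 → A) :
    ((∀ d, φ (τ d) = φ d) ∧ ∀ d : G.Dart, d.fst ∈ Z → φ d = false) ↔
    ((∀ j ∈ J.image l0, VC (gm γ γ' (j, 0)) (up t j) (Φ (j, 0)) (Φ (j, 1))) ∧
      (∀ k ∈ K.image l0, CapC (up ζ k) (Φ (k, 0))) ∧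
      (∀ k ∈ Z.image l0, Φ (k, 0) = fun _ => false) ∧
      ∀ u ∈ R.toList.map l0, ∀ i, Φ (u, pa (up t u) i) = Φ (u, i)) := by
  obtain ⟨hTR, hTJ0, hTJ1, hTK⟩ := hTF
  have hadd : ∀ a b (d : G.Dart), sd (θ (a + b)) d = sd (θ a) (sd (θ b) d) := hFre.radd
  have hJc : ∀ j ∈ J, ((∀ g, φ (sd (θ g) (τ (κ (j, 0)))) = φ (sd (θ g) (κ (j, 0)))) ∧
      ∀ g, φ (sd (θ g) (τ (κ (j, 1)))) = φ (sd (θ g) (κ (j, 1)))) ↔
      VC (γ j) (t j) (Φ (li (j, 0))) (Φ (li (j, 1))) := by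
    intro j hj
    have h2 : γ j + γ j = 0 := (hD.Jst j hj).1.2
    have e0 := hΦ (j, 0) (GPL_mJ0 hj)
    have e1 := hΦ (j, 1) (GPL_mJ1 hj)
    rw [hTJ0 j hj, hTJ1 j hj, VC]
    by_cases ht0 : t j = 0
    · rw [if_pos ht0, if_pos ht0, if_pos ht0, CapC, CapC]
      refine and_congr (forall_congr' fun g => ?_) (forall_congr' fun g => ?_)
      · rw [e0, e0, hadd]
      · rw [e1, e1, hadd]
    · rw [if_neg ht0, if_neg ht0, if_neg ht0]
      by_cases ht1 : t j = 1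
      · rw [if_pos ht1, if_pos ht1, if_pos ht1]
        constructor
        · rintro ⟨h3, -⟩
          funext g
          rw [e0, e1, h3]
        · intro h3
          exact ⟨fun g => by rw [← e0, ← e1, h3], fun g => by rw [← e0, ← e1, h3]⟩
      · rw [if_neg ht1, if_neg ht1, if_neg ht1]
        constructor
        · rintro ⟨h3, -⟩ g
          rw [e1, e0, hadd, h3]
        · intro h3
          refine ⟨fun g => ?_, fun g => ?_⟩
          · rw [← hadd, ← e1, ← e0, h3]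
          · rw [← hadd, ← e0, ← e1, ← h3 (g + γ j), add_assoc, h2, add_zero]
  rw [GPL_inv hFre hτ hinv φ h0]
  constructor
  · rintro ⟨h1, h2⟩
    refine ⟨?_, ?_, ?_, ?_⟩
    · intro j hj
      obtain ⟨v, hv, rfl⟩ := mem_image.1 hj
      exact (hJc v hv).1 ⟨h1 _ (GPL_mJ0 hv), h1 _ (GPL_mJ1 hv)⟩
    · intro k hk
      obtain ⟨v, hv, rfl⟩ := mem_image.1 hk
      intro g
      have e0 := hΦ (v, 0) (GPL_mK hv)
      have h3 := h1 (v, 0) (GPL_mK hv) g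
      rw [hTK v hv, ← hadd, ← e0, ← e0] at h3
      exact h3
    · intro k hk
      obtain ⟨v, hv, rfl⟩ := mem_image.1 hk
      have e0 := hΦ (v, 0) (GPL_mK (hZK hv))
      funext g
      refine (e0 g).trans (h2 _ ?_)
      have h3 : (sd (θ g) (κ (v, 0))).fst = θ g (κ (v, 0)).fst := rfl
      rw [h3, (hD.fst _ (GPL_mK (hZK hv))).1, hD.Kst v (hZK hv)]
      exact hv
    · intro u hu i
      obtain ⟨v, hv, rfl⟩ := List.mem_map.1 hu
      have hv' : v ∈ R := mem_toList.1 hv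
      funext g
      have h3 := h1 (v, i) (GPL_mR hv' i) g
      rw [hTR v hv' i, ← hΦ _ (GPL_mR hv' _), ← hΦ _ (GPL_mR hv' _)] at h3
      exact h3
  · rintro ⟨hJ, hK, hZ, hR⟩
    refine ⟨?_, ?_⟩
    · intro x hx g
      obtain ⟨v, i⟩ := x
      rw [XX, mem_union, mem_union, mem_product, mem_product, mem_product] at hx
      rcases hx with (⟨hv, -⟩ | ⟨hv, hi⟩) | ⟨hv, hi⟩
      · have hv' : v ∈ R := hv
        have h3 := congrFun (hR (l0 v) (List.mem_map.2 ⟨v, mem_toList.2 hv', rfl⟩) i) g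
        rw [hTR v hv' i, ← hΦ _ (GPL_mR hv' _), ← hΦ _ (GPL_mR hv' _)]
        exact h3
      · have hv' : v ∈ J := hv
        have h3 := (hJc v hv').2 (hJ (l0 v) (mem_image_of_mem _ hv'))
        have hi' : i = 0 ∨ i = 1 := by simpa using hi
        rcases hi' with rfl | rfl
        · exact h3.1 g
        · exact h3.2 g
      · have hv' : v ∈ K := hv
        have hi' : i = 0 := by simpa using hi
        subst hi'
        have h3 := hK (l0 v) (mem_image_of_mem _ hv') g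
        rw [hTK v hv', ← hadd, ← hΦ _ (GPL_mK hv'), ← hΦ _ (GPL_mK hv')]
        exact h3
    · intro d hd
      by_cases hY : Yf θ d
      · obtain ⟨a, ha⟩ := hD.Kd d.fst (hZK hd) d rfl hY
        rw [ha, ← hΦ _ (GPL_mK (hZK hd))]
        exact congrFun (hZ (l0 d.fst) (mem_image_of_mem _ hd)) a
      · exact h0 d hY

end

theorem GPL (hFRD : FRD_stmt) : GPL_stmt := by
  intro V A _ _ _ _ G θ R J K Z γ κ e α C γ' t ζ τ hD hQ hZK hτ hinv hTF
  have hFre := hFRD V A G θ R J K γ κ hD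
  obtain ⟨F, hF⟩ := hQ.lab
  have hgm : ∀ c ∈ C, gm γ γ' c = γ' c := by
    intro c hc
    rw [gm, if_neg]
    rw [(hQ.capv c hc).1]
    decide
  let P0 : (G.Dart → Bool) → Prop := fun φ => (∀ d, φ d.symm = φ d) ∧ ∀ d, ¬ Yf θ d → φ d = false
  let P1 : (G.Dart → Bool) → Prop := fun φ =>
    (∀ d, φ (τ d) = φ d) ∧ ∀ d : G.Dart, d.fst ∈ Z → φ d = false
  let Q0 : ((V × Fin 3) × Fin 4 → A → Bool) → Prop := fun Φ =>
    Lab e α Φ ∧ ∀ c ∈ C, CapC (γ' c) (Φ c)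
  let Q1 : ((V × Fin 3) × Fin 4 → A → Bool) → Prop := fun Φ =>
    (∀ j ∈ J.image l0, VC (gm γ γ' (j, 0)) (up t j) (Φ (j, 0)) (Φ (j, 1))) ∧
      (∀ k ∈ K.image l0, CapC (up ζ k) (Φ (k, 0))) ∧
      (∀ k ∈ Z.image l0, Φ (k, 0) = fun _ => false) ∧
      ∀ u ∈ R.toList.map l0, ∀ i, Φ (u, pa (up t u) i) = Φ (u, i)
  have hL : Nat.card {φ : G.Dart → Bool // (∀ d, φ d.symm = φ d) ∧ (∀ d, φ (τ d) = φ d) ∧
        ∀ d, (¬ Yf θ d ∨ d.fst ∈ Z) → φ d = false} =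
      Nat.card {φ : {φ : G.Dart → Bool // P0 φ} // P1 φ.1} := by
    refine Nat.card_congr ((Equiv.subtypeEquivRight fun φ => ?_).trans
      (Equiv.subtypeSubtypeEquivSubtypeInter P0 P1).symm)
    constructor
    · rintro ⟨h1, h2, h3⟩
      exact ⟨⟨h1, fun d hd => h3 d (Or.inl hd)⟩, h2, fun d hd => h3 d (Or.inr hd)⟩
    · rintro ⟨⟨h1, h2⟩, h3, h4⟩
      exact ⟨h1, h3, fun d hd => hd.elim (h2 d) (h4 d)⟩
  have hR : Nat.card {Φ : (V × Fin 3) × Fin 4 → A → Bool //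
        LabK C (J.image l0) (K.image l0) (Z.image l0) (gm γ γ') e α (up t) (up ζ) Φ ∧
        ∀ u ∈ R.toList.map l0, ∀ i, Φ (u, pa (up t u) i) = Φ (u, i)} =
      Nat.card {Φ : {Φ : (V × Fin 3) × Fin 4 → A → Bool // Q0 Φ} // Q1 Φ.1} := by
    refine Nat.card_congr ((Equiv.subtypeEquivRight fun Φ => ?_).trans
      (Equiv.subtypeSubtypeEquivSubtypeInter Q0 Q1).symm)
    constructor
    · rintro ⟨⟨h1, h2, h3, h4, h5⟩, h6⟩
      exact ⟨⟨h1, fun c hc => by rw [← hgm c hc]; exact h2 c hc⟩, h3, h4, h5, h6⟩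
    · rintro ⟨⟨h1, h2⟩, h3, h4, h5, h6⟩
      exact ⟨⟨h1, fun c hc => by rw [hgm c hc]; exact h2 c hc, h3, h4, h5⟩, h6⟩
  rw [hL, hR]
  refine Nat.card_congr (Equiv.subtypeEquiv F fun φ => ?_)
  exact GPL_core hD hFre hZK hτ hinv hTF φ.1 φ.2.2 (F φ).1 (fun x hx g => hF φ x hx g) γ'

end Pool.Agent.SYM
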