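import Pool.Agent.helper5.SYM.SpecA

set_option autoImplicit false

namespace Pool.Agent.SYM
open Finset CT Polynomial

theorem LBF : LBF_stmt := by
  intro D _ s τ Q
  classical
  have hfin : Finite (Cir s τ) := inferInstanceAs (Finite (Quot _))
  have hs : ∀ d, cir s τ (s d) = cir s τ d := fun d =>
    (Quot.sound (r := fun d d' : D => d' = s d ∨ d' = τ d) (a := d) (Or.inl rfl)).symm
  have ht : ∀ d, cir s τ (τ d) = cir s τ d := fun d =>
    (Quot.sound (r := fun d d' : D => d' = s d ∨ d' = τ d) (a := d) (Or.inr rfl)).symm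
  -- the function on the circuits
  let lf : {φ : D → Bool // (∀ d, φ (s d) = φ d) ∧ (∀ d, φ (τ d) = φ d) ∧
      ∀ d, Q d → φ d = false} → Cir s τ → Bool := fun φ c => Quot.lift φ.1 (by
    rintro a b (h | h)
    · rw [h]; exact (φ.2.1 a).symm
    · rw [h]; exact (φ.2.2.1 a).symm) c
  have hlf : ∀ φ d, lf φ (cir s τ d) = φ.1 d := fun φ d => rfl
  let ex : ({c : Cir s τ // ∀ d : D, Q d → cir s τ d ≠ c} → Bool) → Cir s τ → Bool :=
    fun ψ c => if h : ∀ d : D, Q d → cir s τ d ≠ c then ψ ⟨c, h⟩ else false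
  let e : {φ : D → Bool // (∀ d, φ (s d) = φ d) ∧ (∀ d, φ (τ d) = φ d) ∧
      ∀ d, Q d → φ d = false} ≃ ({c : Cir s τ // ∀ d : D, Q d → cir s τ d ≠ c} → Bool) :=
    { toFun := fun φ c => lf φ c.1
      invFun := fun ψ => ⟨fun d => ex ψ (cir s τ d), fun d => congrArg (ex ψ) (hs d),
        fun d => congrArg (ex ψ) (ht d), fun d hd => dif_neg fun h => h d hd rfl⟩
      left_inv := by
        intro φ
        apply Subtype.ext
        funext d
        change (if h : ∀ d' : D, Q d' → cir s τ d' ≠ cir s τ d then lf φ (cir s τ d) else false) =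
          φ.1 d
        split_ifs with h
        · exact hlf φ d
        · push Not at h
          obtain ⟨d', hd', hc⟩ := h
          rw [← hlf φ d, ← hc, hlf φ d', φ.2.2.2 d' hd']
      right_inv := by
        intro ψ
        funext c
        obtain ⟨c, hc⟩ := c
        induction c using Quot.ind with
        | mk d => exact dif_pos hc }
  rw [Nat.card_congr e, Nat.card_fun, Nat.card_eq_fintype_card (α := Bool), Fintype.card_bool]
  rfl

end Pool.Agent.SYM
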